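import Mathlib
import Pool.Agent.MP_31cf8f_co.H41.Main

/-!
For every order `n ≥ 10` there is a balanced digraph whose pair of algebraic connectivities has
both coordinates nonzero and lies strictly below the quartic curve.
-/

namespace Pool.Agent.Results.MP_31cf8f_co.BelowCurve

open Pool.Agent.MP_31cf8f_co.H41

theorem result (n : ℕ) (hn : 10 ≤ n) :
    ∃ (E : Fin n → Fin n → Prop) (x y : ℝ),
      (∀ i, ¬ E i i) ∧ (∀ i, {j | E i j}.ncard = {j | E j i}.ncard) ∧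
      IsAlgConn E x ∧ IsAlgConn (coDigraph E) y ∧
      x ≠ 0 ∧ y ≠ 0 ∧ x ≤ 1 ∧ y ≤ 1 ∧
      x * y * (2 - x * y) < n * (1 - x) * (1 - y) * (n - 2 - x - y) := by
  obtain ⟨m, rfl⟩ : ∃ m, n = m + 4 := ⟨n - 4, by omega⟩
  obtain ⟨x, hx, hx0, hx1⟩ := alg_ex m (by omega)
  obtain ⟨y, hy, hy0, hy1⟩ := alg_compl m (by omega)
  refine ⟨ex m, x, y, ex_irrefl m, card_eq _ (bal_ex m), hx, hy, hx0.ne', hy0.ne', by linarith,
    by linarith, below_curve _ x y (by exact_mod_cast hn) hx0 hy0 hx1 hy1⟩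

end Pool.Agent.Results.MP_31cf8f_co.BelowCurve
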